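import Pool.Agent.BEH.Stmts

/-!
# BEH, row RAI: radial integrals
-/

set_option autoImplicit false

namespace Pool.Agent.BEH.H8

open Set MeasureTheory Pool.Agent.BE01 Pool.Agent.BEL Pool.Agent.BEH

theorem rai : RaiStmt := by
  intro d hd x f
  have h1 : ∫ y : En d, f ‖y - x‖ = ∫ y : En d, f ‖y‖ :=
    integral_sub_right_eq_self (fun y : En d => f ‖y‖) x
  rw [h1]
  rcases hd with rfl | rfl
  · rw [integral_fun_norm_addHaar (volume : Measure (En 2)) f]
    have h2 : Module.finrank ℝ (En 2) = 2 := finrank_euclideanSpace_fin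
    rw [h2, Measure.real, EuclideanSpace.volume_ball_fin_two]
    simp only [ENNReal.ofReal_one, one_pow, one_mul, smul_eq_mul, nsmul_eq_mul,
      sph, if_true]
    rw [ENNReal.toReal_ofReal Real.pi_pos.le]
    push_cast
    ring
  · rw [integral_fun_norm_addHaar (volume : Measure (En 3)) f]
    have h2 : Module.finrank ℝ (En 3) = 3 := finrank_euclideanSpace_fin
    rw [h2, Measure.real, EuclideanSpace.volume_ball_fin_three]
    simp only [ENNReal.ofReal_one, one_pow, one_mul, smul_eq_mul, nsmul_eq_mul,
      sph]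
    rw [ENNReal.toReal_ofReal (by positivity)]
    norm_num
    ring_nf

end Pool.Agent.BEH.H8
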